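import Mathlib

/-! Proportional 0-1 sequences (all eight types of 3-term progressions equally frequent) exist for
infinitely many lengths, namely for the lengths `128 r^2`, `r ≥ 8`. -/

namespace Pool.Agent.Results.MP_0132f6_co.InfinitelyMany

open Finset

/-- The 3-term progressions `(a, a+d, a+2d)`, `d ≥ 1`, in the index set `{0, …, n-1}`, coded as
pairs `(a, d)`. -/
def progs (n : ℕ) : Finset (ℕ × ℕ) :=
  (range n ×ˢ range n).filter fun p => 1 ≤ p.2 ∧ p.1 + 2 * p.2 < n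

/-- The sequence `x 0, …, x (n-1)` is proportional: each of the eight types is the type of exactly
one eighth of the progressions. -/
def IsProportional (n : ℕ) (x : ℕ → Bool) : Prop :=
  ∀ t₀ t₁ t₂ : Bool, 8 * ((progs n).filter fun p =>
    x p.1 = t₀ ∧ x (p.1 + p.2) = t₁ ∧ x (p.1 + 2 * p.2) = t₂).card = (progs n).card

/-- sign of a letter -/
def sg (b : Bool) : ℤ := if b then 1 else -1

lemma sg_sq (b : Bool) : sg b * sg b = 1 := by cases b <;> rfl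

lemma ind_eq (a b c t₀ t₁ t₂ : Bool) :
    8 * (if a = t₀ ∧ b = t₁ ∧ c = t₂ then (1 : ℤ) else 0)
      = (1 + sg t₀ * sg a) * (1 + sg t₁ * sg b) * (1 + sg t₂ * sg c) := by
  cases a <;> cases b <;> cases c <;> cases t₀ <;> cases t₁ <;> cases t₂ <;> simp [sg]

/-- reduction to vanishing sums -/
lemma proportional_of_sums {n : ℕ} {x : ℕ → Bool}
    (h1 : ∑ p ∈ progs n, sg (x p.1) = 0)
    (h2 : ∑ p ∈ progs n, sg (x (p.1 + p.2)) = 0)
    (h3 : ∑ p ∈ progs n, sg (x (p.1 + 2 * p.2)) = 0)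
    (h4 : ∑ p ∈ progs n, sg (x p.1) * sg (x (p.1 + p.2)) = 0)
    (h5 : ∑ p ∈ progs n, sg (x (p.1 + p.2)) * sg (x (p.1 + 2 * p.2)) = 0)
    (h6 : ∑ p ∈ progs n, sg (x p.1) * sg (x (p.1 + 2 * p.2)) = 0)
    (h7 : ∑ p ∈ progs n, sg (x p.1) * sg (x (p.1 + p.2)) * sg (x (p.1 + 2 * p.2)) = 0) :
    IsProportional n x := by
  intro t₀ t₁ t₂
  have key : (8 : ℤ) * ((progs n).filter fun p =>
    x p.1 = t₀ ∧ x (p.1 + p.2) = t₁ ∧ x (p.1 + 2 * p.2) = t₂).card = (progs n).card := by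
    rw [Finset.card_filter]
    push_cast
    rw [Finset.mul_sum]
    have : ∀ p ∈ progs n, (8 : ℤ) * (if x p.1 = t₀ ∧ x (p.1 + p.2) = t₁ ∧ x (p.1 + 2 * p.2) = t₂
        then 1 else 0) = 1 + sg t₀ * sg (x p.1) + sg t₁ * sg (x (p.1 + p.2))
        + sg t₂ * sg (x (p.1 + 2 * p.2)) + sg t₀ * sg t₁ * (sg (x p.1) * sg (x (p.1 + p.2)))
        + sg t₁ * sg t₂ * (sg (x (p.1 + p.2)) * sg (x (p.1 + 2 * p.2)))
        + sg t₀ * sg t₂ * (sg (x p.1) * sg (x (p.1 + 2 * p.2)))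
        + sg t₀ * sg t₁ * sg t₂ * (sg (x p.1) * sg (x (p.1 + p.2)) * sg (x (p.1 + 2 * p.2))) := by
      intro p _
      rw [ind_eq]
      ring
    rw [Finset.sum_congr rfl this]
    simp only [Finset.sum_add_distrib, ← Finset.mul_sum, h1, h2, h3, h4, h5, h6, h7]
    simp
  exact_mod_cast key

/-- reflection -/
lemma sum_reflect (n : ℕ) (F : ℕ → ℕ → ℕ → ℤ) :
    ∑ p ∈ progs n, F p.1 (p.1 + p.2) (p.1 + 2 * p.2)
      = ∑ p ∈ progs n, F (n - 1 - (p.1 + 2 * p.2)) (n - 1 - (p.1 + p.2)) (n - 1 - p.1) := by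
  refine Finset.sum_nbij' (fun p => (n - 1 - (p.1 + 2 * p.2), p.2))
    (fun p => (n - 1 - (p.1 + 2 * p.2), p.2)) ?_ ?_ ?_ ?_ ?_
  · rintro ⟨a, d⟩ h
    simp only [progs, mem_filter, mem_product, mem_range] at h ⊢
    omega
  · rintro ⟨a, d⟩ h
    simp only [progs, mem_filter, mem_product, mem_range] at h ⊢
    omega
  · rintro ⟨a, d⟩ h
    simp only [progs, mem_filter, mem_product, mem_range] at h
    simp only [Prod.mk.injEq, and_true]
    omega
  · rintro ⟨a, d⟩ h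
    simp only [progs, mem_filter, mem_product, mem_range] at h
    simp only [Prod.mk.injEq, and_true]
    omega
  · rintro ⟨a, d⟩ h
    simp only [progs, mem_filter, mem_product, mem_range] at h
    dsimp only
    congr 1 <;> omega

/-- sums by the largest index -/
lemma sum_top (n : ℕ) (F : ℕ → ℕ → ℕ → ℤ) :
    ∑ p ∈ progs n, F p.1 (p.1 + p.2) (p.1 + 2 * p.2)
      = ∑ c ∈ range n, ∑ d ∈ range (c / 2), F (c - 2 * (d + 1)) (c - (d + 1)) c := by
  rw [Finset.sum_sigma']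
  refine Finset.sum_nbij' (fun p => ⟨p.1 + 2 * p.2, p.2 - 1⟩)
    (fun q => (q.1 - 2 * (q.2 + 1), q.2 + 1)) ?_ ?_ ?_ ?_ ?_
  · rintro ⟨a, d⟩ h
    simp only [progs, mem_filter, mem_product, mem_range, mem_sigma] at h ⊢
    omega
  · rintro ⟨c, d⟩ h
    simp only [progs, mem_filter, mem_product, mem_range, mem_sigma] at h ⊢
    omega
  · rintro ⟨a, d⟩ h
    simp only [progs, mem_filter, mem_product, mem_range] at h
    simp only [Prod.mk.injEq]
    omega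
  · rintro ⟨c, d⟩ h
    simp only [mem_range, mem_sigma] at h
    have h1 : c - 2 * (d + 1) + 2 * (d + 1) = c := by omega
    have h2 : d + 1 - 1 = d := by omega
    simp only [h1, h2]
  · rintro ⟨a, d⟩ h
    simp only [progs, mem_filter, mem_product, mem_range] at h
    dsimp only
    congr 1 <;> omega

section antisym

variable {n : ℕ} {s : ℕ → ℤ}

/-- prefix sums -/
def S (s : ℕ → ℤ) (j : ℕ) : ℤ := ∑ i ∈ range j, s i

lemma S_succ (s : ℕ → ℤ) (j : ℕ) : S s (j + 1) = S s j + s j := Finset.sum_range_succ _ _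

lemma S_zero (s : ℕ → ℤ) : S s 0 = 0 := rfl

/-- `∑ s_c S(c)` -/
lemma sum_s_S (hs : ∀ i, s i * s i = 1) (n : ℕ) :
    2 * ∑ c ∈ range n, s c * S s c = S s n * S s n - n := by
  induction n with
  | zero => simp [S_zero]
  | succ n ih =>
    rw [Finset.sum_range_succ, mul_add, ih, S_succ]
    have := hs n
    push_cast
    linear_combination (-1 : ℤ) * this

lemma inner_sum (c : ℕ) : ∑ d ∈ range (c / 2), s (c - (d + 1)) = S s c - S s (c - c / 2) := by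
  have h : ∀ k, k ≤ c → ∑ d ∈ range k, s (c - (d + 1)) = S s c - S s (c - k) := by
    intro k
    induction k with
    | zero => intro _; simp
    | succ k ih =>
      intro hk
      rw [Finset.sum_range_succ, ih (by omega)]
      have : S s (c - k) = S s (c - (k + 1)) + s (c - (k + 1)) := by
        rw [← S_succ]
        congr 1
        omega
      rw [this]
      ring
  exact h _ (by omega)

/-- parity sums below `c` -/
def Par (s : ℕ → ℤ) (c : ℕ) : ℤ := ∑ d ∈ range (c / 2), s (c - 2 * (d + 1))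

lemma Par_succ (s : ℕ → ℤ) (c : ℕ) : Par s (c + 2) = Par s c + s c := by
  unfold Par
  rw [show (c + 2) / 2 = c / 2 + 1 by omega, Finset.sum_range_succ']
  congr 1
  apply Finset.sum_congr rfl
  intro d _
  congr 1
  omega

lemma sum_s_Par (hs : ∀ i, s i * s i = 1) (n : ℕ) :
    2 * ∑ c ∈ range n, s c * Par s c = Par s n * Par s n + Par s (n + 1) * Par s (n + 1) - n := by
  induction n with
  | zero => simp [Par]
  | succ n ih =>
    rw [Finset.sum_range_succ, mul_add, ih, show n + 1 + 1 = n + 2 by ring, Par_succ]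
    have := hs n
    push_cast
    linear_combination (-1 : ℤ) * this

end antisym

/-- Reduction for antisymmetric sequences. -/
lemma proportional_of_antisym {n : ℕ} {x : ℕ → Bool}
    (hanti : ∀ i < n, sg (x (n - 1 - i)) = - sg (x i))
    (hL : ∑ c ∈ range n, sg (x c) * ((c / 2 : ℕ) : ℤ) = 0)
    (hS : S (fun i => sg (x i)) n = 0)
    (hQ : 2 * ∑ c ∈ range n, sg (x c) * S (fun i => sg (x i)) (c - c / 2) = - n)
    (hP : Par (fun i => sg (x i)) n * Par (fun i => sg (x i)) n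
      + Par (fun i => sg (x i)) (n + 1) * Par (fun i => sg (x i)) (n + 1) = n) :
    IsProportional n x := by
  have hmem : ∀ p ∈ progs n, p.1 < n ∧ p.1 + p.2 < n ∧ p.1 + 2 * p.2 < n := by
    rintro ⟨a, d⟩ h
    simp only [progs, mem_filter, mem_product, mem_range] at h ⊢
    omega
  have hsq : ∀ i, (fun i => sg (x i)) i * (fun i => sg (x i)) i = 1 := fun i => sg_sq _
  -- third
  have h3 : ∑ p ∈ progs n, sg (x (p.1 + 2 * p.2)) = 0 := by
    rw [sum_top n (fun _ _ c => sg (x c)), ← hL]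
    apply Finset.sum_congr rfl
    intro c _
    rw [Finset.sum_const, card_range, nsmul_eq_mul, mul_comm]
  have h1 : ∑ p ∈ progs n, sg (x p.1) = 0 := by
    rw [sum_reflect n (fun a _ _ => sg (x a))]
    rw [← neg_eq_zero, ← h3, ← Finset.sum_neg_distrib]
    apply Finset.sum_congr rfl
    intro p hp
    rw [hanti _ (hmem p hp).2.2, neg_neg]
  have h2 : ∑ p ∈ progs n, sg (x (p.1 + p.2)) = 0 := by
    have h := sum_reflect n (fun _ b _ => sg (x b))
    have h' : ∑ p ∈ progs n, sg (x (n - 1 - (p.1 + p.2)))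
        = - ∑ p ∈ progs n, sg (x (p.1 + p.2)) := by
      rw [← Finset.sum_neg_distrib]
      apply Finset.sum_congr rfl
      intro p hp
      rw [hanti _ (hmem p hp).2.1]
    rw [h'] at h
    linarith
  have h7 : ∑ p ∈ progs n, sg (x p.1) * sg (x (p.1 + p.2)) * sg (x (p.1 + 2 * p.2)) = 0 := by
    have h := sum_reflect n (fun a b c => sg (x a) * sg (x b) * sg (x c))
    have h' : ∑ p ∈ progs n, sg (x (n - 1 - (p.1 + 2 * p.2))) * sg (x (n - 1 - (p.1 + p.2)))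
          * sg (x (n - 1 - p.1))
        = - ∑ p ∈ progs n, sg (x p.1) * sg (x (p.1 + p.2)) * sg (x (p.1 + 2 * p.2)) := by
      rw [← Finset.sum_neg_distrib]
      apply Finset.sum_congr rfl
      intro p hp
      rw [hanti _ (hmem p hp).2.1, hanti _ (hmem p hp).1, hanti _ (hmem p hp).2.2]
      ring
    rw [h'] at h
    linarith
  have h5 : ∑ p ∈ progs n, sg (x (p.1 + p.2)) * sg (x (p.1 + 2 * p.2)) = 0 := by
    rw [sum_top n (fun _ b c => sg (x b) * sg (x c))]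
    have h : ∀ c ∈ range n, ∑ d ∈ range (c / 2), sg (x (c - (d + 1))) * sg (x c)
        = sg (x c) * S (fun i => sg (x i)) c - sg (x c) * S (fun i => sg (x i)) (c - c / 2) := by
      intro c _
      rw [← Finset.sum_mul, inner_sum (s := fun i => sg (x i)) c]
      ring
    rw [Finset.sum_congr rfl h, Finset.sum_sub_distrib]
    have h' := sum_s_S hsq n
    rw [hS] at h'
    linarith
  have h4 : ∑ p ∈ progs n, sg (x p.1) * sg (x (p.1 + p.2)) = 0 := by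
    rw [sum_reflect n (fun a b _ => sg (x a) * sg (x b)), ← h5]
    apply Finset.sum_congr rfl
    intro p hp
    rw [hanti _ (hmem p hp).2.1, hanti _ (hmem p hp).2.2]
    ring
  have h6 : ∑ p ∈ progs n, sg (x p.1) * sg (x (p.1 + 2 * p.2)) = 0 := by
    rw [sum_top n (fun a _ c => sg (x a) * sg (x c))]
    have h : ∀ c ∈ range n, ∑ d ∈ range (c / 2), sg (x (c - 2 * (d + 1))) * sg (x c)
        = sg (x c) * Par (fun i => sg (x i)) c := by
      intro c _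
      rw [← Finset.sum_mul, Par]
      ring
    rw [Finset.sum_congr rfl h]
    have h' := sum_s_Par hsq n
    linarith
  exact proportional_of_sums h1 h2 h3 h4 h5 h6 h7

/-! ### Sums over blocks of four -/

lemma sum_four (M : ℕ) (F : ℕ → ℤ) : ∑ c ∈ range (4 * M), F c
    = ∑ t ∈ range M, (F (4 * t) + F (4 * t + 1) + F (4 * t + 2) + F (4 * t + 3)) := by
  induction M with
  | zero => simp
  | succ M ih =>
    rw [show 4 * (M + 1) = 4 * M + 1 + 1 + 1 + 1 by ring, Finset.sum_range_succ,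
      Finset.sum_range_succ, Finset.sum_range_succ, Finset.sum_range_succ, ih,
      Finset.sum_range_succ]
    ring

lemma sum_fold (M : ℕ) (G : ℕ → ℤ) : ∑ t ∈ range (2 * M), G t
    = ∑ t ∈ range M, (G t + G (2 * M - 1 - t)) := by
  rw [Finset.sum_add_distrib, two_mul, Finset.sum_range_add]
  congr 1
  rw [← Finset.sum_range_reflect]
  apply Finset.sum_congr rfl
  intro t ht
  rw [mem_range] at ht
  congr 1
  omega

/-- The letters of the block `t` of the first half. -/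
def bl (r t u : ℕ) : Bool :=
  if t < 7 * r ^ 2 + r then (u % 2 == 0)
  else if t < 7 * r ^ 2 + 5 * r then true
  else if t < 8 * r ^ 2 - 2 * r then (u % 2 == 0)
  else if t < 8 * r ^ 2 + 2 * r then (u == 1 || u == 2)
  else if t < 10 * r ^ 2 - r then (u % 2 == 1)
  else if t < 10 * r ^ 2 + 5 * r then false
  else (u % 2 == 1)

/-- The sequence of length `128 r^2`. -/
def x (r i : ℕ) : Bool :=
  if i < 64 * r ^ 2 then bl r (i / 4) (i % 4)
  else !(bl r ((128 * r ^ 2 - 1 - i) / 4) ((128 * r ^ 2 - 1 - i) % 4))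

section main

variable {r : ℕ}

lemma sg_not (b : Bool) : sg (!b) = - sg b := by cases b <;> rfl

lemma x_anti (i : ℕ) (hi : i < 128 * r ^ 2) :
    sg (x r (128 * r ^ 2 - 1 - i)) = - sg (x r i) := by
  unfold x
  split_ifs with h1 h2 h2
  · omega
  · rw [sg_not, neg_neg]
  · rw [sg_not]
    congr 3
    all_goals congr 1
    all_goals omega
  · omega

/-- signs -/
def e (r t u : ℕ) : ℤ := sg (bl r t u)

lemma x_first {t u : ℕ} (ht : t < 16 * r ^ 2) (hu : u < 4) : sg (x r (4 * t + u)) = e r t u := by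
  unfold x e
  rw [if_pos (by omega), show (4 * t + u) / 4 = t by omega, show (4 * t + u) % 4 = u by omega]

lemma x_second {t u : ℕ} (ht : t < 16 * r ^ 2) (hu : u < 4) :
    sg (x r (4 * (32 * r ^ 2 - 1 - t) + u)) = - e r t (3 - u) := by
  rw [← x_first ht (by omega), ← x_anti _ (by omega)]
  congr 2
  omega

lemma e_z1 {t : ℕ} (h : t < 7 * r ^ 2 + r) :
    e r t 0 = 1 ∧ e r t 1 = -1 ∧ e r t 2 = 1 ∧ e r t 3 = -1 := by
  simp [e, bl, h, sg]

lemma e_z2 {t : ℕ} (h : 7 * r ^ 2 + r ≤ t) (h' : t < 7 * r ^ 2 + 5 * r) :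
    e r t 0 = 1 ∧ e r t 1 = 1 ∧ e r t 2 = 1 ∧ e r t 3 = 1 := by
  simp [e, bl, not_lt.2 h, h', sg]

lemma e_z3 {t : ℕ} (h : 7 * r ^ 2 + 5 * r ≤ t) (h' : t < 8 * r ^ 2 - 2 * r) :
    e r t 0 = 1 ∧ e r t 1 = -1 ∧ e r t 2 = 1 ∧ e r t 3 = -1 := by
  have h1 : ¬ t < 7 * r ^ 2 + r := by omega
  simp [e, bl, h1, not_lt.2 h, h', sg]

lemma e_z4 (hr : 7 * r ≤ r ^ 2) {t : ℕ} (h : 8 * r ^ 2 - 2 * r ≤ t) (h' : t < 8 * r ^ 2 + 2 * r) :
    e r t 0 = -1 ∧ e r t 1 = 1 ∧ e r t 2 = 1 ∧ e r t 3 = -1 := by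
  have h1 : ¬ t < 7 * r ^ 2 + r := by omega
  have h2 : ¬ t < 7 * r ^ 2 + 5 * r := by omega
  simp [e, bl, h1, h2, not_lt.2 h, h', sg]

lemma e_z5 (hr : 7 * r ≤ r ^ 2) {t : ℕ} (h : 8 * r ^ 2 + 2 * r ≤ t) (h' : t < 10 * r ^ 2 - r) :
    e r t 0 = -1 ∧ e r t 1 = 1 ∧ e r t 2 = -1 ∧ e r t 3 = 1 := by
  have h1 : ¬ t < 7 * r ^ 2 + r := by omega
  have h2 : ¬ t < 7 * r ^ 2 + 5 * r := by omega
  have h3 : ¬ t < 8 * r ^ 2 - 2 * r := by omega
  simp [e, bl, h1, h2, h3, not_lt.2 h, h', sg]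

lemma e_z6 (hr : 7 * r ≤ r ^ 2) {t : ℕ} (h : 10 * r ^ 2 - r ≤ t) (h' : t < 10 * r ^ 2 + 5 * r) :
    e r t 0 = -1 ∧ e r t 1 = -1 ∧ e r t 2 = -1 ∧ e r t 3 = -1 := by
  have h1 : ¬ t < 7 * r ^ 2 + r := by omega
  have h2 : ¬ t < 7 * r ^ 2 + 5 * r := by omega
  have h3 : ¬ t < 8 * r ^ 2 - 2 * r := by omega
  have h4 : ¬ t < 8 * r ^ 2 + 2 * r := by omega
  simp [e, bl, h1, h2, h3, h4, not_lt.2 h, h', sg]

lemma e_z7 (hr : 7 * r ≤ r ^ 2) {t : ℕ} (h : 10 * r ^ 2 + 5 * r ≤ t) :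
    e r t 0 = -1 ∧ e r t 1 = 1 ∧ e r t 2 = -1 ∧ e r t 3 = 1 := by
  have h1 : ¬ t < 7 * r ^ 2 + r := by omega
  have h2 : ¬ t < 7 * r ^ 2 + 5 * r := by omega
  have h3 : ¬ t < 8 * r ^ 2 - 2 * r := by omega
  have h4 : ¬ t < 8 * r ^ 2 + 2 * r := by omega
  have h5 : ¬ t < 10 * r ^ 2 - r := by omega
  simp [e, bl, h1, h2, h3, h4, h5, not_lt.2 h, sg]

lemma const_zone {a b : ℕ} {K : ℕ → ℤ} (k : ℤ) (h : ∀ t, a ≤ t → t < b → K t = k) :
    ∑ t ∈ Ico a b, K t = ((b - a : ℕ) : ℤ) * k := by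
  rw [Finset.sum_congr rfl (fun t ht => h t (mem_Ico.1 ht).1 (mem_Ico.1 ht).2), Finset.sum_const,
    Nat.card_Ico, nsmul_eq_mul]

lemma lin_zone (a l : ℕ) (c : ℤ) :
    ∑ t ∈ Ico a (a + l), (16 * (t : ℤ) + c) = 16 * a * l + 8 * l * (l - 1) + c * l := by
  induction l with
  | zero => simp
  | succ l ih =>
    rw [← add_assoc, Finset.sum_Ico_succ_top (by omega), ih]
    push_cast
    ring

lemma tele {a b : ℕ} (hab : a ≤ b) (f : ℕ → ℤ) :
    ∑ t ∈ Ico a b, (f (t + 1) - f t) = f b - f a := by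
  induction b, hab using Nat.le_induction with
  | base => simp
  | succ b hb ih =>
    rw [Finset.sum_Ico_succ_top hb, ih]
    ring

/-- splitting into the seven zones -/
lemma zones (hr : 8 * r ≤ r ^ 2) (K : ℕ → ℤ) :
    ∑ t ∈ range (16 * r ^ 2), K t = ∑ t ∈ Ico 0 (7 * r ^ 2 + r), K t
      + ∑ t ∈ Ico (7 * r ^ 2 + r) (7 * r ^ 2 + 5 * r), K t
      + ∑ t ∈ Ico (7 * r ^ 2 + 5 * r) (8 * r ^ 2 - 2 * r), K t
      + ∑ t ∈ Ico (8 * r ^ 2 - 2 * r) (8 * r ^ 2 + 2 * r), K t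
      + ∑ t ∈ Ico (8 * r ^ 2 + 2 * r) (10 * r ^ 2 - r), K t
      + ∑ t ∈ Ico (10 * r ^ 2 - r) (10 * r ^ 2 + 5 * r), K t
      + ∑ t ∈ Ico (10 * r ^ 2 + 5 * r) (16 * r ^ 2), K t := by
  rw [Finset.sum_Ico_consecutive _ (by omega) (by omega),
    Finset.sum_Ico_consecutive _ (by omega) (by omega),
    Finset.sum_Ico_consecutive _ (by omega) (by omega),
    Finset.sum_Ico_consecutive _ (by omega) (by omega),
    Finset.sum_Ico_consecutive _ (by omega) (by omega),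
    Finset.sum_Ico_consecutive _ (by omega) (by omega), Finset.range_eq_Ico]

/-- sums over the whole sequence, folded -/
lemma fold_sum (F : ℕ → ℤ) : ∑ c ∈ range (128 * r ^ 2), F c
    = ∑ t ∈ range (16 * r ^ 2),
      ((F (4 * t) + F (4 * t + 1) + F (4 * t + 2) + F (4 * t + 3))
      + (F (4 * (32 * r ^ 2 - 1 - t)) + F (4 * (32 * r ^ 2 - 1 - t) + 1)
        + F (4 * (32 * r ^ 2 - 1 - t) + 2) + F (4 * (32 * r ^ 2 - 1 - t) + 3))) := by
  rw [show 128 * r ^ 2 = 4 * (2 * (16 * r ^ 2)) by ring, sum_four, sum_fold,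
    show 2 * (16 * r ^ 2) = 32 * r ^ 2 by ring]

/-- letters as a function -/
def s (r : ℕ) (i : ℕ) : ℤ := sg (x r i)

lemma s1 {t : ℕ} (ht : t < 16 * r ^ 2) : s r (4 * t) = e r t 0 ∧ s r (4 * t + 1) = e r t 1 ∧
    s r (4 * t + 2) = e r t 2 ∧ s r (4 * t + 3) = e r t 3 :=
  ⟨x_first (u := 0) ht (by norm_num), x_first (u := 1) ht (by norm_num),
    x_first (u := 2) ht (by norm_num), x_first (u := 3) ht (by norm_num)⟩

lemma s2 {t : ℕ} (ht : t < 16 * r ^ 2) : s r (4 * (32 * r ^ 2 - 1 - t)) = - e r t 3 ∧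
    s r (4 * (32 * r ^ 2 - 1 - t) + 1) = - e r t 2 ∧
    s r (4 * (32 * r ^ 2 - 1 - t) + 2) = - e r t 1 ∧
    s r (4 * (32 * r ^ 2 - 1 - t) + 3) = - e r t 0 :=
  ⟨x_second (u := 0) ht (by norm_num), x_second (u := 1) ht (by norm_num),
    x_second (u := 2) ht (by norm_num), x_second (u := 3) ht (by norm_num)⟩

lemma S_total : S (s r) (128 * r ^ 2) = 0 := by
  unfold S
  rw [fold_sum]
  apply Finset.sum_eq_zero
  intro t ht
  rw [mem_range] at ht
  obtain ⟨a1, a2, a3, a4⟩ := s1 ht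
  obtain ⟨b1, b2, b3, b4⟩ := s2 ht
  rw [a1, a2, a3, a4, b1, b2, b3, b4]
  ring

/-- prefix sums in the first zone -/
lemma S_low (hr : 8 * r ≤ r ^ 2) : ∀ j, j ≤ 2 * (7 * r ^ 2 + r) → S (s r) (2 * j) = 0 := by
  intro j
  induction j with
  | zero => intro _; rfl
  | succ j ih =>
    intro hj
    rw [show 2 * (j + 1) = 2 * j + 1 + 1 by ring, S_succ, S_succ, ih (by omega)]
    have ht : j / 2 < 16 * r ^ 2 := by omega
    have hz := e_z1 (r := r) (t := j / 2) (by omega)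
    obtain ⟨a1, a2, a3, a4⟩ := s1 ht
    rcases Nat.even_or_odd' j with ⟨k, hk | hk⟩
    · rw [show 2 * j = 4 * (j / 2) by omega, a1, a2, hz.1, hz.2.1]
      norm_num
    · rw [show 2 * j = 4 * (j / 2) + 2 by omega, a3, show 4 * (j / 2) + 2 + 1 = 4 * (j / 2) + 3
        by ring, a4, hz.2.2.1, hz.2.2.2]
      norm_num

lemma S_low' (hr : 8 * r ≤ r ^ 2) {j : ℕ} (hj : j < 2 * (7 * r ^ 2 + r)) :
    S (s r) (2 * j + 1) = 1 := by
  rw [S_succ, S_low hr j (by omega)]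
  have ht : j / 2 < 16 * r ^ 2 := by omega
  have hz := e_z1 (r := r) (t := j / 2) (by omega)
  obtain ⟨a1, a2, a3, a4⟩ := s1 ht
  rcases Nat.even_or_odd' j with ⟨k, hk | hk⟩
  · rw [show 2 * j = 4 * (j / 2) by omega, a1, hz.1]
    norm_num
  · rw [show 2 * j = 4 * (j / 2) + 2 by omega, a3, hz.2.2.1]
    norm_num

/-- the value after the sixth zone -/
lemma S_mid (hr : 8 * r ≤ r ^ 2) : S (s r) (4 * (10 * r ^ 2 + 5 * r)) = -8 * r := by
  unfold S
  rw [sum_four]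
  set K : ℕ → ℤ := fun t => s r (4 * t) + s r (4 * t + 1) + s r (4 * t + 2) + s r (4 * t + 3)
    with hK
  have hval : ∀ t, t < 16 * r ^ 2 → K t = e r t 0 + e r t 1 + e r t 2 + e r t 3 := by
    intro t ht
    obtain ⟨a1, a2, a3, a4⟩ := s1 ht
    rw [hK]
    simp only
    rw [a1, a2, a3, a4]
  have hz := zones hr K
  have hsplit : ∑ t ∈ range (16 * r ^ 2), K t = ∑ t ∈ range (10 * r ^ 2 + 5 * r), K t
      + ∑ t ∈ Ico (10 * r ^ 2 + 5 * r) (16 * r ^ 2), K t := by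
    rw [Finset.range_eq_Ico, Finset.range_eq_Ico, Finset.sum_Ico_consecutive _ (by omega)
      (by omega)]
  rw [const_zone (K := K) 0 (a := 0) (b := 7 * r ^ 2 + r) (fun t _ h2 => by
      obtain ⟨a1, a2, a3, a4⟩ := e_z1 (r := r) (t := t) h2
      rw [hval t (by omega), a1, a2, a3, a4]; norm_num),
    const_zone (K := K) 4 (a := 7 * r ^ 2 + r) (b := 7 * r ^ 2 + 5 * r) (fun t h1 h2 => by
      obtain ⟨a1, a2, a3, a4⟩ := e_z2 (r := r) (t := t) h1 h2
      rw [hval t (by omega), a1, a2, a3, a4]; norm_num),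
    const_zone (K := K) 0 (a := 7 * r ^ 2 + 5 * r) (b := 8 * r ^ 2 - 2 * r) (fun t h1 h2 => by
      obtain ⟨a1, a2, a3, a4⟩ := e_z3 (r := r) (t := t) h1 h2
      rw [hval t (by omega), a1, a2, a3, a4]; norm_num),
    const_zone (K := K) 0 (a := 8 * r ^ 2 - 2 * r) (b := 8 * r ^ 2 + 2 * r) (fun t h1 h2 => by
      obtain ⟨a1, a2, a3, a4⟩ := e_z4 (r := r) (by omega) (t := t) h1 h2
      rw [hval t (by omega), a1, a2, a3, a4]; norm_num),
    const_zone (K := K) 0 (a := 8 * r ^ 2 + 2 * r) (b := 10 * r ^ 2 - r) (fun t h1 h2 => by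
      obtain ⟨a1, a2, a3, a4⟩ := e_z5 (r := r) (by omega) (t := t) h1 h2
      rw [hval t (by omega), a1, a2, a3, a4]; norm_num),
    const_zone (K := K) (-4) (a := 10 * r ^ 2 - r) (b := 10 * r ^ 2 + 5 * r) (fun t h1 h2 => by
      obtain ⟨a1, a2, a3, a4⟩ := e_z6 (r := r) (by omega) (t := t) h1 h2
      rw [hval t (by omega), a1, a2, a3, a4]; norm_num)] at hz
  have l2 : 7 * r ^ 2 + 5 * r - (7 * r ^ 2 + r) = 4 * r := by omega
  have l6 : 10 * r ^ 2 + 5 * r - (10 * r ^ 2 - r) = 6 * r := by omega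
  rw [l2, l6] at hz
  push_cast at hz
  linarith

/-- prefix sums in the last zone -/
lemma S_high (hr : 8 * r ≤ r ^ 2) : ∀ j, 2 * (10 * r ^ 2 + 5 * r) ≤ j → j ≤ 32 * r ^ 2 →
    S (s r) (2 * j) = -8 * r := by
  intro j hj
  induction j, hj using Nat.le_induction with
  | base =>
    intro _
    rw [show 2 * (2 * (10 * r ^ 2 + 5 * r)) = 4 * (10 * r ^ 2 + 5 * r) by ring]
    exact S_mid hr
  | succ j hj ih =>
    intro hj2
    rw [show 2 * (j + 1) = 2 * j + 1 + 1 by ring, S_succ, S_succ, ih (by omega)]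
    have ht : j / 2 < 16 * r ^ 2 := by omega
    have hz := e_z7 (r := r) (by omega) (t := j / 2) (by omega)
    obtain ⟨a1, a2, a3, a4⟩ := s1 ht
    rcases Nat.even_or_odd' j with ⟨k, hk | hk⟩
    · rw [show 2 * j = 4 * (j / 2) by omega, a1, a2, hz.1, hz.2.1]
      ring
    · rw [show 2 * j = 4 * (j / 2) + 2 by omega, a3, show 4 * (j / 2) + 2 + 1 = 4 * (j / 2) + 3
        by ring, a4, hz.2.2.1, hz.2.2.2]
      ring

lemma S_high' (hr : 8 * r ≤ r ^ 2) {j : ℕ} (hj : 2 * (10 * r ^ 2 + 5 * r) ≤ j)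
    (hj2 : j < 32 * r ^ 2) : S (s r) (2 * j + 1) = -8 * r - 1 := by
  rw [S_succ, S_high hr j hj (by omega)]
  have ht : j / 2 < 16 * r ^ 2 := by omega
  have hz := e_z7 (r := r) (by omega) (t := j / 2) (by omega)
  obtain ⟨a1, a2, a3, a4⟩ := s1 ht
  rcases Nat.even_or_odd' j with ⟨k, hk | hk⟩
  · rw [show 2 * j = 4 * (j / 2) by omega, a1, hz.1]
    ring
  · rw [show 2 * j = 4 * (j / 2) + 2 by omega, a3, hz.2.2.1]
    ring

/-- the linear condition -/
lemma L_total (hr : 8 * r ≤ r ^ 2) :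
    ∑ c ∈ range (128 * r ^ 2), s r c * ((c / 2 : ℕ) : ℤ) = 0 := by
  rw [fold_sum]
  set K : ℕ → ℤ := fun t =>
      ((s r (4 * t) * ((4 * t / 2 : ℕ) : ℤ) + s r (4 * t + 1) * (((4 * t + 1) / 2 : ℕ) : ℤ)
        + s r (4 * t + 2) * (((4 * t + 2) / 2 : ℕ) : ℤ)
        + s r (4 * t + 3) * (((4 * t + 3) / 2 : ℕ) : ℤ))
      + (s r (4 * (32 * r ^ 2 - 1 - t)) * ((4 * (32 * r ^ 2 - 1 - t) / 2 : ℕ) : ℤ)
        + s r (4 * (32 * r ^ 2 - 1 - t) + 1) * (((4 * (32 * r ^ 2 - 1 - t) + 1) / 2 : ℕ) : ℤ)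
        + s r (4 * (32 * r ^ 2 - 1 - t) + 2) * (((4 * (32 * r ^ 2 - 1 - t) + 2) / 2 : ℕ) : ℤ)
        + s r (4 * (32 * r ^ 2 - 1 - t) + 3)
          * (((4 * (32 * r ^ 2 - 1 - t) + 3) / 2 : ℕ) : ℤ))) with hK
  have hval : ∀ t, t < 16 * r ^ 2 → K t = (e r t 0 + e r t 1) * (4 * t - 64 * r ^ 2 + 1)
      + (e r t 2 + e r t 3) * (4 * t - 64 * r ^ 2 + 3) := by
    intro t ht
    obtain ⟨a1, a2, a3, a4⟩ := s1 ht
    obtain ⟨b1, b2, b3, b4⟩ := s2 ht
    have c1 : 4 * t / 2 = 2 * t := by omega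
    have c2 : (4 * t + 1) / 2 = 2 * t := by omega
    have c3 : (4 * t + 2) / 2 = 2 * t + 1 := by omega
    have c4 : (4 * t + 3) / 2 = 2 * t + 1 := by omega
    have d1 : 4 * (32 * r ^ 2 - 1 - t) / 2 = 2 * (32 * r ^ 2 - 1 - t) := by omega
    have d2 : (4 * (32 * r ^ 2 - 1 - t) + 1) / 2 = 2 * (32 * r ^ 2 - 1 - t) := by omega
    have d3 : (4 * (32 * r ^ 2 - 1 - t) + 2) / 2 = 2 * (32 * r ^ 2 - 1 - t) + 1 := by omega
    have d4 : (4 * (32 * r ^ 2 - 1 - t) + 3) / 2 = 2 * (32 * r ^ 2 - 1 - t) + 1 := by omega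
    have d5 : ((32 * r ^ 2 - 1 - t : ℕ) : ℤ) = 32 * r ^ 2 - 1 - t := by
      rw [Nat.cast_sub (by omega), Nat.cast_sub (by omega)]
      push_cast
      ring
    rw [hK]
    simp only
    rw [a1, a2, a3, a4, b1, b2, b3, b4, c1, c2, c3, c4, d1, d2, d3, d4]
    push_cast
    rw [d5]
    ring
  rw [zones hr K]
  rw [const_zone (K := K) 0 (a := 0) (b := 7 * r ^ 2 + r) (fun t _ h2 => by
      obtain ⟨a1, a2, a3, a4⟩ := e_z1 (r := r) (t := t) h2
      rw [hval t (by omega), a1, a2, a3, a4]; ring),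
    const_zone (K := K) 0 (a := 7 * r ^ 2 + 5 * r) (b := 8 * r ^ 2 - 2 * r) (fun t h1 h2 => by
      obtain ⟨a1, a2, a3, a4⟩ := e_z3 (r := r) (t := t) h1 h2
      rw [hval t (by omega), a1, a2, a3, a4]; ring),
    const_zone (K := K) 0 (a := 8 * r ^ 2 - 2 * r) (b := 8 * r ^ 2 + 2 * r) (fun t h1 h2 => by
      obtain ⟨a1, a2, a3, a4⟩ := e_z4 (r := r) (by omega) (t := t) h1 h2
      rw [hval t (by omega), a1, a2, a3, a4]; ring),
    const_zone (K := K) 0 (a := 8 * r ^ 2 + 2 * r) (b := 10 * r ^ 2 - r) (fun t h1 h2 => by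
      obtain ⟨a1, a2, a3, a4⟩ := e_z5 (r := r) (by omega) (t := t) h1 h2
      rw [hval t (by omega), a1, a2, a3, a4]; ring),
    const_zone (K := K) 0 (a := 10 * r ^ 2 + 5 * r) (b := 16 * r ^ 2) (fun t h1 h2 => by
      obtain ⟨a1, a2, a3, a4⟩ := e_z7 (r := r) (by omega) (t := t) h1
      rw [hval t (by omega), a1, a2, a3, a4]; ring)]
  have z2 : ∑ t ∈ Ico (7 * r ^ 2 + r) (7 * r ^ 2 + 5 * r), K t
      = ∑ t ∈ Ico (7 * r ^ 2 + r : ℕ) (7 * r ^ 2 + r + 4 * r : ℕ),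
        (16 * ((t : ℕ) : ℤ) + (8 - 256 * (r : ℤ) ^ 2)) := by
    rw [show 7 * r ^ 2 + r + 4 * r = 7 * r ^ 2 + 5 * r by ring]
    apply Finset.sum_congr rfl
    intro t ht
    rw [mem_Ico] at ht
    obtain ⟨a1, a2, a3, a4⟩ := e_z2 (r := r) (t := t) ht.1 ht.2
    rw [hval t (by omega), a1, a2, a3, a4]
    ring
  have z6 : ∑ t ∈ Ico (10 * r ^ 2 - r) (10 * r ^ 2 + 5 * r), K t
      = - ∑ t ∈ Ico (10 * r ^ 2 - r : ℕ) (10 * r ^ 2 - r + 6 * r : ℕ),
        (16 * ((t : ℕ) : ℤ) + (8 - 256 * (r : ℤ) ^ 2)) := by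
    rw [show 10 * r ^ 2 - r + 6 * r = 10 * r ^ 2 + 5 * r by omega, ← Finset.sum_neg_distrib]
    apply Finset.sum_congr rfl
    intro t ht
    rw [mem_Ico] at ht
    obtain ⟨a1, a2, a3, a4⟩ := e_z6 (r := r) (by omega) (t := t) ht.1 ht.2
    rw [hval t (by omega), a1, a2, a3, a4]
    ring
  have hcast : ((10 * r ^ 2 - r : ℕ) : ℤ) = 10 * r ^ 2 - r := by
    rw [Nat.cast_sub (by omega)]
    push_cast
    ring
  rw [z2, z6, lin_zone, lin_zone, hcast]
  push_cast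
  ring

/-- the quadratic condition -/
lemma Q_total (hr : 8 * r ≤ r ^ 2) :
    2 * ∑ c ∈ range (128 * r ^ 2), s r c * S (s r) (c - c / 2) = - (128 * r ^ 2) := by
  rw [fold_sum]
  set K : ℕ → ℤ := fun t =>
      ((s r (4 * t) * S (s r) (4 * t - 4 * t / 2)
        + s r (4 * t + 1) * S (s r) (4 * t + 1 - (4 * t + 1) / 2)
        + s r (4 * t + 2) * S (s r) (4 * t + 2 - (4 * t + 2) / 2)
        + s r (4 * t + 3) * S (s r) (4 * t + 3 - (4 * t + 3) / 2))
      + (s r (4 * (32 * r ^ 2 - 1 - t))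
          * S (s r) (4 * (32 * r ^ 2 - 1 - t) - 4 * (32 * r ^ 2 - 1 - t) / 2)
        + s r (4 * (32 * r ^ 2 - 1 - t) + 1)
          * S (s r) (4 * (32 * r ^ 2 - 1 - t) + 1 - (4 * (32 * r ^ 2 - 1 - t) + 1) / 2)
        + s r (4 * (32 * r ^ 2 - 1 - t) + 2)
          * S (s r) (4 * (32 * r ^ 2 - 1 - t) + 2 - (4 * (32 * r ^ 2 - 1 - t) + 2) / 2)
        + s r (4 * (32 * r ^ 2 - 1 - t) + 3)
          * S (s r) (4 * (32 * r ^ 2 - 1 - t) + 3 - (4 * (32 * r ^ 2 - 1 - t) + 3) / 2)))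
    with hK
  have hval : ∀ t, t < 16 * r ^ 2 → K t = e r t 0 * S (s r) (2 * t)
      + (e r t 1 + e r t 2) * S (s r) (2 * t + 1) + e r t 3 * S (s r) (2 * (t + 1))
      - (e r t 3 * S (s r) (2 * (32 * r ^ 2 - 1 - t))
        + (e r t 2 + e r t 1) * S (s r) (2 * (32 * r ^ 2 - 1 - t) + 1)
        + e r t 0 * S (s r) (2 * (32 * r ^ 2 - t))) := by
    intro t ht
    obtain ⟨a1, a2, a3, a4⟩ := s1 ht
    obtain ⟨b1, b2, b3, b4⟩ := s2 ht
    rw [hK]
    simp only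
    rw [a1, a2, a3, a4, b1, b2, b3, b4,
      show 4 * t - 4 * t / 2 = 2 * t by omega,
      show 4 * t + 1 - (4 * t + 1) / 2 = 2 * t + 1 by omega,
      show 4 * t + 2 - (4 * t + 2) / 2 = 2 * t + 1 by omega,
      show 4 * t + 3 - (4 * t + 3) / 2 = 2 * (t + 1) by omega,
      show 4 * (32 * r ^ 2 - 1 - t) - 4 * (32 * r ^ 2 - 1 - t) / 2
        = 2 * (32 * r ^ 2 - 1 - t) by omega,
      show 4 * (32 * r ^ 2 - 1 - t) + 1 - (4 * (32 * r ^ 2 - 1 - t) + 1) / 2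
        = 2 * (32 * r ^ 2 - 1 - t) + 1 by omega,
      show 4 * (32 * r ^ 2 - 1 - t) + 2 - (4 * (32 * r ^ 2 - 1 - t) + 2) / 2
        = 2 * (32 * r ^ 2 - 1 - t) + 1 by omega,
      show 4 * (32 * r ^ 2 - 1 - t) + 3 - (4 * (32 * r ^ 2 - 1 - t) + 3) / 2
        = 2 * (32 * r ^ 2 - t) by omega]
    ring
  -- middle zones
  have hmid : ∀ t, 7 * r ^ 2 + r ≤ t → t < 10 * r ^ 2 + 5 * r →
      K t = 2 * (e r t 1 + e r t 2) + 8 * r * (e r t 0 + e r t 1 + e r t 2 + e r t 3) := by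
    intro t h1 h2
    rw [hval t (by omega), S_low hr t (by omega), S_low' hr (by omega), S_low hr (t + 1) (by omega),
      S_high hr _ (by omega) (by omega), S_high' hr (by omega) (by omega),
      S_high hr _ (by omega) (by omega)]
    ring
  have z7 : ∑ t ∈ Ico (10 * r ^ 2 + 5 * r) (16 * r ^ 2), K t = -8 * r := by
    have h1 : ∀ t ∈ Ico (10 * r ^ 2 + 5 * r) (16 * r ^ 2), K t
        = (S (s r) (2 * (t + 1)) - S (s r) (2 * t))
          + ((fun t => - S (s r) (2 * (32 * r ^ 2 - t))) (t + 1)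
            - (fun t => - S (s r) (2 * (32 * r ^ 2 - t))) t) := by
      intro t ht
      rw [mem_Ico] at ht
      obtain ⟨a1, a2, a3, a4⟩ := e_z7 (r := r) (by omega) (t := t) ht.1
      rw [hval t (by omega), a1, a2, a3, a4]
      simp only
      rw [show 32 * r ^ 2 - (t + 1) = 32 * r ^ 2 - 1 - t by omega]
      ring
    rw [Finset.sum_congr rfl h1, Finset.sum_add_distrib,
      tele (by omega) (fun t => S (s r) (2 * t)),
      tele (by omega) (fun t => - S (s r) (2 * (32 * r ^ 2 - t)))]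
    rw [S_low hr (10 * r ^ 2 + 5 * r) (by omega),
      S_high hr (32 * r ^ 2 - (10 * r ^ 2 + 5 * r)) (by omega) (by omega),
      show 32 * r ^ 2 - 16 * r ^ 2 = 16 * r ^ 2 by omega]
    ring
  rw [zones hr K, z7]
  rw [const_zone (K := K) 0 (a := 0) (b := 7 * r ^ 2 + r) (fun t _ h2 => by
      obtain ⟨a1, a2, a3, a4⟩ := e_z1 (r := r) (t := t) h2
      rw [hval t (by omega), a1, a2, a3, a4, S_low hr t (by omega),
        S_low hr (t + 1) (by omega), S_high hr (32 * r ^ 2 - 1 - t) (by omega) (by omega),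
        S_high hr (32 * r ^ 2 - t) (by omega) (by omega)]; ring),
    const_zone (K := K) (4 + 32 * r) (a := 7 * r ^ 2 + r) (b := 7 * r ^ 2 + 5 * r)
      (fun t h1 h2 => by
      obtain ⟨a1, a2, a3, a4⟩ := e_z2 (r := r) (t := t) h1 h2
      rw [hmid t (by omega) (by omega), a1, a2, a3, a4]; ring),
    const_zone (K := K) 0 (a := 7 * r ^ 2 + 5 * r) (b := 8 * r ^ 2 - 2 * r) (fun t h1 h2 => by
      obtain ⟨a1, a2, a3, a4⟩ := e_z3 (r := r) (t := t) h1 h2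
      rw [hmid t (by omega) (by omega), a1, a2, a3, a4]; ring),
    const_zone (K := K) 4 (a := 8 * r ^ 2 - 2 * r) (b := 8 * r ^ 2 + 2 * r) (fun t h1 h2 => by
      obtain ⟨a1, a2, a3, a4⟩ := e_z4 (r := r) (by omega) (t := t) h1 h2
      rw [hmid t (by omega) (by omega), a1, a2, a3, a4]; ring),
    const_zone (K := K) 0 (a := 8 * r ^ 2 + 2 * r) (b := 10 * r ^ 2 - r) (fun t h1 h2 => by
      obtain ⟨a1, a2, a3, a4⟩ := e_z5 (r := r) (by omega) (t := t) h1 h2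
      rw [hmid t (by omega) (by omega), a1, a2, a3, a4]; ring),
    const_zone (K := K) (-4 - 32 * r) (a := 10 * r ^ 2 - r) (b := 10 * r ^ 2 + 5 * r)
      (fun t h1 h2 => by
      obtain ⟨a1, a2, a3, a4⟩ := e_z6 (r := r) (by omega) (t := t) h1 h2
      rw [hmid t (by omega) (by omega), a1, a2, a3, a4]; ring)]
  have l2 : 7 * r ^ 2 + 5 * r - (7 * r ^ 2 + r) = 4 * r := by omega
  have l4 : 8 * r ^ 2 + 2 * r - (8 * r ^ 2 - 2 * r) = 4 * r := by omega
  have l6 : 10 * r ^ 2 + 5 * r - (10 * r ^ 2 - r) = 6 * r := by omega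
  rw [l2, l4, l6]
  push_cast
  ring

lemma Par_four (M : ℕ) (f : ℕ → ℤ) : Par f (4 * M) = ∑ t ∈ range M, (f (4 * t) + f (4 * t + 2)) := by
  induction M with
  | zero => simp [Par]
  | succ M ih =>
    rw [show 4 * (M + 1) = 4 * M + 2 + 2 by ring, Par_succ, Par_succ, ih, Finset.sum_range_succ]
    ring

lemma Par_four' (M : ℕ) (f : ℕ → ℤ) :
    Par f (4 * M + 1) = ∑ t ∈ range M, (f (4 * t + 1) + f (4 * t + 3)) := by
  induction M with
  | zero => simp [Par]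
  | succ M ih =>
    rw [show 4 * (M + 1) + 1 = 4 * M + 1 + 2 + 2 by ring, Par_succ, Par_succ, ih,
      Finset.sum_range_succ]
    ring

/-- alternating block sums -/
lemma tau_sum (hr : 8 * r ≤ r ^ 2) :
    ∑ t ∈ range (16 * r ^ 2), (e r t 0 - e r t 1 + e r t 2 - e r t 3) = 8 * r := by
  set K : ℕ → ℤ := fun t => e r t 0 - e r t 1 + e r t 2 - e r t 3 with hK
  rw [zones hr K]
  rw [const_zone (K := K) 4 (a := 0) (b := 7 * r ^ 2 + r) (fun t _ h2 => by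
      obtain ⟨a1, a2, a3, a4⟩ := e_z1 (r := r) (t := t) h2
      simp only [hK]; rw [a1, a2, a3, a4]; norm_num),
    const_zone (K := K) 0 (a := 7 * r ^ 2 + r) (b := 7 * r ^ 2 + 5 * r) (fun t h1 h2 => by
      obtain ⟨a1, a2, a3, a4⟩ := e_z2 (r := r) (t := t) h1 h2
      simp only [hK]; rw [a1, a2, a3, a4]; norm_num),
    const_zone (K := K) 4 (a := 7 * r ^ 2 + 5 * r) (b := 8 * r ^ 2 - 2 * r) (fun t h1 h2 => by
      obtain ⟨a1, a2, a3, a4⟩ := e_z3 (r := r) (t := t) h1 h2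
      simp only [hK]; rw [a1, a2, a3, a4]; norm_num),
    const_zone (K := K) 0 (a := 8 * r ^ 2 - 2 * r) (b := 8 * r ^ 2 + 2 * r) (fun t h1 h2 => by
      obtain ⟨a1, a2, a3, a4⟩ := e_z4 (r := r) (by omega) (t := t) h1 h2
      simp only [hK]; rw [a1, a2, a3, a4]; norm_num),
    const_zone (K := K) (-4) (a := 8 * r ^ 2 + 2 * r) (b := 10 * r ^ 2 - r) (fun t h1 h2 => by
      obtain ⟨a1, a2, a3, a4⟩ := e_z5 (r := r) (by omega) (t := t) h1 h2
      simp only [hK]; rw [a1, a2, a3, a4]; norm_num),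
    const_zone (K := K) 0 (a := 10 * r ^ 2 - r) (b := 10 * r ^ 2 + 5 * r) (fun t h1 h2 => by
      obtain ⟨a1, a2, a3, a4⟩ := e_z6 (r := r) (by omega) (t := t) h1 h2
      simp only [hK]; rw [a1, a2, a3, a4]; norm_num),
    const_zone (K := K) (-4) (a := 10 * r ^ 2 + 5 * r) (b := 16 * r ^ 2) (fun t h1 h2 => by
      obtain ⟨a1, a2, a3, a4⟩ := e_z7 (r := r) (by omega) (t := t) h1
      simp only [hK]; rw [a1, a2, a3, a4]; norm_num)]
  have l1 : ((7 * r ^ 2 + r - 0 : ℕ) : ℤ) = 7 * r ^ 2 + r := by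
    rw [Nat.sub_zero]; push_cast; ring
  have l3 : ((8 * r ^ 2 - 2 * r - (7 * r ^ 2 + 5 * r) : ℕ) : ℤ) = r ^ 2 - 7 * r := by
    rw [Nat.cast_sub (by omega), Nat.cast_sub (by omega)]; push_cast; ring
  have l5 : ((10 * r ^ 2 - r - (8 * r ^ 2 + 2 * r) : ℕ) : ℤ) = 2 * r ^ 2 - 3 * r := by
    rw [Nat.cast_sub (by omega), Nat.cast_sub (by omega)]; push_cast; ring
  have l7 : ((16 * r ^ 2 - (10 * r ^ 2 + 5 * r) : ℕ) : ℤ) = 6 * r ^ 2 - 5 * r := by
    rw [Nat.cast_sub (by omega)]; push_cast; ring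
  rw [l1, l3, l5, l7]
  ring

lemma Par_total (hr : 8 * r ≤ r ^ 2) : Par (s r) (128 * r ^ 2) = 8 * r := by
  rw [show 128 * r ^ 2 = 4 * (2 * (16 * r ^ 2)) by ring, Par_four, sum_fold,
    show 2 * (16 * r ^ 2) = 32 * r ^ 2 by ring, ← tau_sum hr]
  apply Finset.sum_congr rfl
  intro t ht
  rw [mem_range] at ht
  obtain ⟨a1, a2, a3, a4⟩ := s1 ht
  obtain ⟨b1, b2, b3, b4⟩ := s2 ht
  rw [a1, a3, b1, b3]
  ring

lemma Par_total' (hr : 8 * r ≤ r ^ 2) : Par (s r) (128 * r ^ 2 + 1) = -(8 * r) := by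
  rw [show 128 * r ^ 2 = 4 * (2 * (16 * r ^ 2)) by ring, Par_four', sum_fold,
    show 2 * (16 * r ^ 2) = 32 * r ^ 2 by ring, ← tau_sum hr, ← Finset.sum_neg_distrib]
  apply Finset.sum_congr rfl
  intro t ht
  rw [mem_range] at ht
  obtain ⟨a1, a2, a3, a4⟩ := s1 ht
  obtain ⟨b1, b2, b3, b4⟩ := s2 ht
  rw [a2, a4, b2, b4]
  ring

/-- The explicit sequence of length `128 r^2`. -/
theorem explicit (hr : 8 ≤ r) : IsProportional (128 * r ^ 2) (x r) := by
  have hr' : 8 * r ≤ r ^ 2 := by nlinarith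
  apply proportional_of_antisym
  · intro i hi
    exact x_anti i hi
  · exact L_total hr'
  · exact S_total
  · have := Q_total hr'
    push_cast
    exact this
  · have h1 := Par_total hr'
    have h2 := Par_total' hr'
    have h3 : Par (fun i => sg (x r i)) (128 * r ^ 2) = 8 * r := h1
    have h4 : Par (fun i => sg (x r i)) (128 * r ^ 2 + 1) = -(8 * r) := h2
    rw [h3, h4]
    push_cast
    ring

end main

/-- Q1: proportional sequences exist for infinitely many lengths. -/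
theorem result : {n : ℕ | 3 ≤ n ∧ ∃ x : ℕ → Bool, IsProportional n x}.Infinite := by
  apply Set.infinite_of_not_bddAbove
  rintro ⟨B, hB⟩
  have h1 : 128 * (B + 8) ^ 2 ≤ B := by
    apply hB
    have h0 : B + 8 ≤ (B + 8) ^ 2 := Nat.le_self_pow (by norm_num) _
    refine ⟨by omega, x (B + 8), explicit (by omega)⟩
  have h0 : B + 8 ≤ (B + 8) ^ 2 := Nat.le_self_pow (by norm_num) _
  omega

end Pool.Agent.Results.MP_0132f6_co.InfinitelyMany
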